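import Pool.Agent.H651Z.Sch.Time

/-!
# `P2 | pmtn, p_j = p | ∑ w_j T_j` is solvable in polynomial time for every fixed `p`

Sorted completion times are feasible iff `C_1 ≥ p` and `C_(k-1) + C_k ≥ k p`; they may be taken
half-integral.  For fixed completion times there is an optimal assignment in which the jobs before
the lightest job are exactly the other jobs with due date below a threshold.  This gives a dynamic
program over (due date window, weight rank, positions, two boundary completion times).
-/

set_option autoImplicit false

namespace Pool.Agent.Results.MP_df8bb0_lc.APolyTime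

open Pool.Agent.NPC Pool.Agent.H651Z.Sch

/-- For every fixed `p ≥ 1` a polynomial-time algorithm outputs an optimal preemptive schedule on
two machines, and the decision version is in `P`. -/
theorem result (p : ℕ) (hp : 1 ≤ p) :
    (∃ (F : List Bool → List Bool) (out : List (ℕ × ℕ) → List (ℕ × Bool × ℕ × ℕ)), PolyTime F ∧
      ∀ jobs : List (ℕ × ℕ), F (bits jobs) = bits (out jobs) ∧
        Valid p jobs.length (halves (out jobs)) ∧
        ∀ S, Valid p jobs.length S → cost jobs (halves (out jobs)) ≤ cost jobs S) ∧
    InPP (fun a : List (ℕ × ℕ) × ℤ => ∃ S, Valid p a.1.length S ∧ cost a.1 S ≤ (a.2 : ℝ)) := by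
  refine ⟨⟨fun x => bits ((unbits (List (ℕ × ℕ)) x).elim [] (sol p)), sol p, polyTime_bits ?_,
    fun jobs => ?_⟩, inPP_of (poly_test p) (test_spec hp)⟩
  · exact Poly.optElim (h := fun _ b => sol p b) poly_unbits (NPC.Poly.const _)
      ((poly_sol p).comp (Poly.snd Poly.id))
  · obtain ⟨h1, h2, h3⟩ := sol_spec hp jobs
    refine ⟨by dsimp only; rw [unbits_bits]; rfl, h1, fun S hS => ?_⟩
    have := h3 S hS
    linarith

end Pool.Agent.Results.MP_df8bb0_lc.APolyTime
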